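import Pool.Agent.H492Z.DisjMain

set_option autoImplicit false

namespace Pool.Agent.Results.MP_5d027a_an.AProduct

open Pool.Agent.H492Z.Disj

/-- If two systems (nonempty compact metric spaces with homeomorphisms) are each disjoint from
every minimal system, then so is their product. -/
theorem result (X Y : Type) [MetricSpace X] [CompactSpace X] [Nonempty X]
    [MetricSpace Y] [CompactSpace Y] [Nonempty Y] (T : X ≃ₜ X) (S : Y ≃ₜ Y)
    (hT : PerpMin T) (hS : PerpMin S) : PerpMin (T.prodCongr S) :=
  main hT hS

end Pool.Agent.Results.MP_5d027a_an.AProduct
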